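import Pool.Agent.WAT.Stmts

/-!
# Squad WAT, row CPV: coprime action of the inertial group on the defect group
-/

set_option autoImplicit false

open scoped BigOperators

noncomputable section

namespace Pool.Agent.PP.TV.H60

open Pool.Agent.Helper51_AWC Pool.Agent.Helper79_WRA Pool.Agent.PP Pool.Agent.PP.KF
open Pool.Agent.PP.K9 Pool.Agent.PP.K9.H97 Pool.Agent.PP.H75 Pool.Agent.PP.T3 Pool.Agent.PP.T2
open Pool.Agent.PP.T5 Pool.Agent.PP.TB
open Pool.Agent.PP.T8 (Rv Fq Fr)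

attribute [local instance] Ideal.Quotient.field

/-- the projection on the fixed points of a coprime group of automorphisms -/
theorem proj (ℓ : ℕ) [hℓ : Fact ℓ.Prime] (V : Type) [CommGroup V] [Finite V] (hV : IsPGroup ℓ V)
    (S : Subgroup (MulAut V)) (hS : ¬ ℓ ∣ Nat.card S) :
    ∃ π : V →* V, (∀ v, ∀ s ∈ S, s (π v) = π v ∧ π (s v) = π v) ∧
      (∀ v, (∀ s ∈ S, s v = v) → π v = v) ∧
      ∀ W : Subgroup V, (∀ v, ∀ s ∈ S, s v * v⁻¹ ∈ W) → ∀ v, π v * v⁻¹ ∈ W := by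
  classical
  have : Finite (MulAut V) := Finite.of_injective (fun g : MulAut V => (g : V → V))
    (fun g h hgh => MulEquiv.ext (fun x => congrFun hgh x))
  have := Fintype.ofFinite S
  obtain ⟨a, ha⟩ := IsPGroup.iff_card.1 hV
  have hexp : ∀ v : V, v ^ ℓ ^ a = 1 := by
    intro v
    rw [← ha]
    exact pow_card_eq_one'
  obtain ⟨P, hP⟩ : ∃ P : V →* V, ∀ v, P v = ∏ s : S, (s : MulAut V) v := by
    refine ⟨{ toFun := fun v => ∏ s : S, (s : MulAut V) v, map_one' := ?_, map_mul' := ?_ },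
      fun v => rfl⟩
    · simp
    · intro v w
      simp [Finset.prod_mul_distrib]
  have hP1 : ∀ v, ∀ s ∈ S, s (P v) = P v := by
    intro v s hs
    rw [hP, map_prod]
    refine Fintype.prod_equiv (Equiv.mulLeft (⟨s, hs⟩ : S)) _ _ fun t => ?_
    rfl
  have hP2 : ∀ v, ∀ s ∈ S, P (s v) = P v := by
    intro v s hs
    rw [hP, hP]
    refine Fintype.prod_equiv (Equiv.mulRight (⟨s, hs⟩ : S)) _ _ fun t => ?_
    rfl
  obtain ⟨m', hm'⟩ : ∃ m' : ℕ, ∀ v : V, (v ^ Nat.card S) ^ m' = v := by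
    have hco : Nat.Coprime (Nat.card S) (ℓ ^ a) :=
      (((Nat.Prime.coprime_iff_not_dvd hℓ.out).2 hS).symm).pow_right a
    obtain ⟨m', hm'⟩ : ∃ m' : ℕ, Nat.card S * m' ≡ 1 [MOD ℓ ^ a] := by
      rcases Nat.eq_zero_or_pos a with h0 | h0
      · refine ⟨0, ?_⟩
        rw [h0, pow_zero]
        exact Nat.modEq_one
      · have hk : 1 < ℓ ^ a := Nat.one_lt_pow h0.ne' hℓ.out.one_lt
        obtain ⟨m', -, h⟩ := Nat.exists_mul_mod_eq_one_of_coprime hco hk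
        refine ⟨m', ?_⟩
        unfold Nat.ModEq
        rw [h, Nat.mod_eq_of_lt hk]
    refine ⟨m', fun v => ?_⟩
    rw [← pow_mul]
    have h1 : Nat.card S * m' ≡ 1 [MOD orderOf v] :=
      hm'.of_dvd (orderOf_dvd_of_pow_eq_one (hexp v))
    have h2 := pow_eq_pow_iff_modEq.2 h1
    rwa [pow_one] at h2
  refine ⟨(powMonoidHom m').comp P, ?_, ?_, ?_⟩
  · intro v s hs
    change s (P v ^ m') = P v ^ m' ∧ P (s v) ^ m' = P v ^ m'
    rw [map_pow, hP1 v s hs, hP2 v s hs]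
    exact ⟨rfl, rfl⟩
  · intro v hv
    have e : P v = v ^ Nat.card S := by
      rw [hP, Finset.prod_congr rfl (fun (s : S) _ => hv s s.2), Finset.prod_const,
        Finset.card_univ, Nat.card_eq_fintype_card]
    change P v ^ m' = v
    rw [e, hm']
  · intro W hW v
    have e : P v * (v ^ Nat.card S)⁻¹ ∈ W := by
      have h1 : P v * (v ^ Nat.card S)⁻¹ = ∏ s : S, ((s : MulAut V) v * v⁻¹) := by
        rw [Finset.prod_mul_distrib, hP, Finset.prod_const, Finset.card_univ,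
          Nat.card_eq_fintype_card, inv_pow]
      rw [h1]
      exact W.prod_mem fun s _ => hW v s s.2
    have h2 : P v ^ m' * v⁻¹ = (P v * (v ^ Nat.card S)⁻¹) ^ m' := by
      rw [mul_pow, inv_pow, hm']
    change P v ^ m' * v⁻¹ ∈ W
    rw [h2]
    exact W.pow_mem e m'

/-- Coprime action of a subgroup of the normaliser. -/
theorem cop (ℓ : ℕ) [hℓ : Fact ℓ.Prime] {G : Type} [Group G] [Finite G] (V T : Subgroup G)
    (hab : ∀ a ∈ V, ∀ b ∈ V, a * b = b * a) (hV : IsPGroup ℓ V)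
    (hT : T ≤ Subgroup.normalizer (V : Set G))
    (hi : ¬ ℓ ∣ (Subgroup.centralizer (V : Set G)).relIndex T) :
    ⁅T, V⁆ ≤ V ∧ (V ⊓ Subgroup.centralizer (T : Set G)) ⊓ ⁅T, V⁆ = ⊥ ∧
      ∀ v ∈ V, ∃ z ∈ V ⊓ Subgroup.centralizer (T : Set G), ∃ w ∈ ⁅T, V⁆, v = z * w := by
  have hle : ⁅T, V⁆ ≤ V := by
    rw [Subgroup.commutator_le]
    intro t ht v hv
    have h1 := (Subgroup.mem_normalizer_iff.1 (hT ht) v).1 hv
    exact V.mul_mem h1 (V.inv_mem hv)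
  obtain ⟨φ, hφ, hk⟩ : ∃ φ : T →* MulAut V, (∀ (t : T) (v : V), ((φ t v : V) : G) =
      (t : G) * v * (t : G)⁻¹) ∧ φ.ker = (Subgroup.centralizer (V : Set G)).subgroupOf T := by
    refine ⟨V.normalizerMonoidHom.comp (Subgroup.inclusion hT), fun t v => rfl, ?_⟩
    rw [← MonoidHom.comap_ker, Subgroup.normalizerMonoidHom_ker]
    rfl
  let _ : CommGroup V := { (inferInstance : Group V) with
    mul_comm := fun a b => Subtype.ext (hab a a.2 b b.2) }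
  have hS : ¬ ℓ ∣ Nat.card φ.range := by
    rw [← Subgroup.index_ker, hk]
    exact hi
  obtain ⟨π, h1, h2, h3⟩ := proj ℓ V hV φ.range hS
  have hcm : ∀ (t : T) (v : V), ((φ t v * v⁻¹ : V) : G) =
      (t : G) * v * (t : G)⁻¹ * (v : G)⁻¹ := by
    intro t v
    change ((φ t v : V) : G) * (v : G)⁻¹ = _
    rw [hφ]
  refine ⟨hle, ?_, ?_⟩
  · rw [Subgroup.eq_bot_iff_forall]
    rintro v ⟨⟨hv, hvT⟩, hvc⟩
    have h4 : π ⟨v, hv⟩ = ⟨v, hv⟩ := by
      apply h2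
      rintro s ⟨t, rfl⟩
      apply Subtype.ext
      rw [hφ]
      change (t : G) * v * (t : G)⁻¹ = v
      rw [Subgroup.mem_centralizer_iff.1 hvT t t.2, mul_inv_cancel_right]
    have h5 : ⁅T, V⁆ ≤ π.ker.map V.subtype := by
      rw [Subgroup.commutator_le]
      intro t ht w hw
      refine ⟨φ ⟨t, ht⟩ ⟨w, hw⟩ * (⟨w, hw⟩ : V)⁻¹, ?_, hcm ⟨t, ht⟩ ⟨w, hw⟩⟩
      change π _ = 1
      rw [map_mul, map_inv, (h1 ⟨w, hw⟩ (φ ⟨t, ht⟩) ⟨_, rfl⟩).2, mul_inv_cancel]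
    obtain ⟨w, hw, hwv⟩ := h5 hvc
    have h6 : w = ⟨v, hv⟩ := Subtype.ext hwv
    rw [h6] at hw
    have h7 : π ⟨v, hv⟩ = 1 := hw
    rw [h4] at h7
    exact congrArg Subtype.val h7
  · intro v hv
    have h4 := h3 (⁅T, V⁆.subgroupOf V) (by
      rintro w s ⟨t, rfl⟩
      rw [Subgroup.mem_subgroupOf, hcm]
      exact Subgroup.commutator_mem_commutator t.2 w.2) ⟨v, hv⟩
    rw [Subgroup.mem_subgroupOf] at h4
    have h5 : ((π ⟨v, hv⟩ : V) : G) * v⁻¹ ∈ ⁅T, V⁆ := h4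
    have h6 : v * ((π ⟨v, hv⟩ : V) : G)⁻¹ ∈ ⁅T, V⁆ := by
      have := ⁅T, V⁆.inv_mem h5
      rwa [mul_inv_rev, inv_inv] at this
    refine ⟨π ⟨v, hv⟩, ⟨(π ⟨v, hv⟩).2, ?_⟩, v * ((π ⟨v, hv⟩ : V) : G)⁻¹, h6, ?_⟩
    · refine Subgroup.mem_centralizer_iff.2 fun t ht => ?_
      have h7 := congrArg Subtype.val (h1 ⟨v, hv⟩ (φ ⟨t, ht⟩) ⟨_, rfl⟩).1
      rw [hφ] at h7
      change t * ((π ⟨v, hv⟩ : V) : G) * t⁻¹ = _ at h7
      exact mul_inv_eq_iff_eq_mul.1 h7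
    · rw [← mul_assoc, hab _ (π ⟨v, hv⟩).2 v hv, mul_inv_cancel_right]

/-- Row CPV. -/
theorem cpv : CpvStmt := by
  intro ℓ hℓ F _ _ G _ _ e V γ hL hi
  exact cop ℓ V (Tg V γ) hL.ab hL.tp.pg inf_le_left hi

end Pool.Agent.PP.TV.H60
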